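import Mathlib

/-!
# The loneliness gap can drop from 1/2 to 1/(n+1) under every translation

For all `n ≥ 2` and `a ≥ 1` the `n`-set `V = a {1, 3, …, 2 n - 1}` has the largest possible
loneliness gap `κ(V) = 1 / 2`, while the gap of its translate `a + V = 2 a {1, 2, …, n}` is
`1 / (n + 1)`, the value that the lonely runner conjecture predicts as the least possible one.
-/

set_option autoImplicit false

namespace Pool.Agent.Results.MP_64d5df_nt.TranslationLosesEverything

/-- The loneliness gap of a finite set of speeds: the supremum over all real `t` of the minimum over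
`v ∈ V` of the distance of `t v` to the nearest integer. -/
noncomputable def κ (V : Finset ℕ) : ℝ :=
  ⨆ t : ℝ, ⨅ v : V, |t * (v : ℕ) - round (t * (v : ℕ))|

/-- The translate `a + V`. -/
def translate (a : ℕ) (V : Finset ℕ) : Finset ℕ := V.image (fun v => a + v)

/-- `V` is a set of `n` positive integers. -/
def IsSpeeds (n : ℕ) (V : Finset ℕ) : Prop := V.card = n ∧ ∀ v ∈ V, 0 < v

theorem bdd (V : Finset ℕ) (t : ℝ) :
    BddBelow (Set.range fun v : V => |t * (v : ℕ) - round (t * (v : ℕ))|) :=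
  ⟨0, by rintro _ ⟨v, rfl⟩; exact abs_nonneg _⟩

theorem inf_le {V : Finset ℕ} (t : ℝ) {v : ℕ} (hv : v ∈ V) :
    (⨅ v : V, |t * (v : ℕ) - round (t * (v : ℕ))|) ≤ |t * v - round (t * v)| :=
  ciInf_le (bdd V t) ⟨v, hv⟩

theorem bddA {V : Finset ℕ} (hV : V.Nonempty) :
    BddAbove (Set.range fun t : ℝ => ⨅ v : V, |t * (v : ℕ) - round (t * (v : ℕ))|) := by
  obtain ⟨v, hv⟩ := hV
  refine ⟨1 / 2, ?_⟩
  rintro _ ⟨t, rfl⟩
  exact (inf_le t hv).trans (abs_sub_round _)

theorem le_κ {V : Finset ℕ} (hV : V.Nonempty) {c : ℝ} (t : ℝ)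
    (h : ∀ v ∈ V, c ≤ |t * v - round (t * v)|) : c ≤ κ V := by
  refine le_trans ?_ (le_ciSup (bddA hV) t)
  have : Nonempty V := hV.to_subtype
  exact le_ciInf fun v => h v v.2

theorem κ_le_half {V : Finset ℕ} (hV : V.Nonempty) : κ V ≤ 1 / 2 := by
  obtain ⟨v, hv⟩ := hV
  exact ciSup_le fun t => (inf_le t hv).trans (abs_sub_round _)

theorem le_nd {c y : ℝ} (n : ℤ) (h1 : c ≤ y - n) (h2 : y - n ≤ 1 - c) : c ≤ |y - round y| := by
  rcases le_or_gt (round y) n with h | h
  · have : ((round y : ℤ) : ℝ) ≤ n := by exact_mod_cast h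
    exact le_trans (by linarith) (le_abs_self _)
  · have : (n : ℝ) + 1 ≤ ((round y : ℤ) : ℝ) := by exact_mod_cast h
    exact le_trans (by linarith) (neg_le_abs _)

/-- **Theorem.** Let `n ≥ 2` and `a ≥ 1`. There is a set `V` of `n` speeds with `κ(V) = 1 / 2` and
`κ(a + V) = 1 / (n + 1)`; in particular `κ(a + V) < κ(V)`. -/
theorem result : ∀ n a : ℕ, 2 ≤ n → 1 ≤ a → ∃ V : Finset ℕ, IsSpeeds n V ∧
    κ V = 1 / 2 ∧ κ (translate a V) = 1 / ((n : ℝ) + 1) ∧ κ (translate a V) < κ V := by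
  intro n a hn ha
  set V : Finset ℕ := (Finset.Icc 1 n).image (fun w => a * (2 * w - 1)) with hVdef
  have hinj : Set.InjOn (fun w => a * (2 * w - 1)) (Finset.Icc 1 n : Set ℕ) := by
    intro x hx y hy hxy
    have hx' := (Finset.mem_Icc.1 (Finset.mem_coe.1 hx)).1
    have hy' := (Finset.mem_Icc.1 (Finset.mem_coe.1 hy)).1
    have h3 : 2 * x - 1 = 2 * y - 1 := Nat.eq_of_mul_eq_mul_left (by omega) hxy
    omega
  have hV : IsSpeeds n V := by
    refine ⟨?_, fun v hv => ?_⟩
    · rw [hVdef, Finset.card_image_of_injOn hinj, Nat.card_Icc]; omega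
    · obtain ⟨w, hw, rfl⟩ := Finset.mem_image.1 hv
      have := (Finset.mem_Icc.1 hw).1
      exact Nat.mul_pos (by omega) (by omega)
  have hVne : V.Nonempty := by
    rw [← Finset.card_pos, hV.1]; omega
  have haR : (0 : ℝ) < a := by exact_mod_cast (show 0 < a by omega)
  have hnR : (2 : ℝ) ≤ n := by exact_mod_cast hn
  have hhalf : κ V = 1 / 2 := by
    refine le_antisymm (κ_le_half hVne) (le_κ hVne (1 / (2 * a)) fun v hv => ?_)
    obtain ⟨w, hw, rfl⟩ := Finset.mem_image.1 hv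
    have hw1 := (Finset.mem_Icc.1 hw).1
    have e : 1 / (2 * (a : ℝ)) * ((a * (2 * w - 1) : ℕ) : ℝ) = ((w : ℤ) - 1 : ℤ) + 1 / 2 := by
      rw [Nat.cast_mul, Nat.cast_sub (by omega)]
      push_cast
      field_simp
      ring
    rw [e]
    refine le_nd ((w : ℤ) - 1) ?_ ?_ <;> linarith
  have hmem : ∀ w, 1 ≤ w → w ≤ n → 2 * a * w ∈ translate a V := by
    intro w h1 h2
    refine Finset.mem_image.2 ⟨a * (2 * w - 1), Finset.mem_image.2 ⟨w, Finset.mem_Icc.2 ⟨h1, h2⟩, rfl⟩, ?_⟩
    obtain ⟨u, rfl⟩ : ∃ u, w = u + 1 := ⟨w - 1, by omega⟩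
    have : 2 * (u + 1) - 1 = 2 * u + 1 := by omega
    rw [this]; ring
  have hT : κ (translate a V) = 1 / ((n : ℝ) + 1) := by
    apply le_antisymm
    · refine ciSup_le fun t => ?_
      obtain ⟨k, hk0, hkn, hk⟩ := Real.exists_nat_abs_mul_sub_round_le (t * (2 * a)) (n := n) (by omega)
      refine (inf_le t (hmem k hk0 hkn)).trans ?_
      have e : t * ((2 * a * k : ℕ) : ℝ) = k * (t * (2 * a)) := by push_cast; ring
      rw [e]; exact hk
    · have hne : (translate a V).Nonempty := hVne.image _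
      refine le_κ hne (1 / (2 * a * (n + 1))) fun v hv => ?_
      obtain ⟨u, hu, rfl⟩ := Finset.mem_image.1 hv
      obtain ⟨w, hw, rfl⟩ := Finset.mem_image.1 hu
      obtain ⟨h1, h2⟩ := Finset.mem_Icc.1 hw
      have e : 1 / (2 * (a : ℝ) * (n + 1)) * ((a + a * (2 * w - 1) : ℕ) : ℝ) = (w : ℝ) / (n + 1) := by
        rw [Nat.cast_add, Nat.cast_mul, Nat.cast_sub (by omega)]
        push_cast
        field_simp
        ring
      rw [e]
      have h1' : (1 : ℝ) ≤ w := by exact_mod_cast h1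
      have h2' : (w : ℝ) ≤ n := by exact_mod_cast h2
      refine le_nd 0 ?_ ?_
      · rw [Int.cast_zero, sub_zero]
        gcongr
      · rw [Int.cast_zero, sub_zero, le_sub_iff_add_le, ← add_div, div_le_one (by positivity)]
        linarith
  refine ⟨V, hV, hhalf, hT, ?_⟩
  rw [hhalf, hT]
  apply one_div_lt_one_div_of_lt (by norm_num)
  linarith

end Pool.Agent.Results.MP_64d5df_nt.TranslationLosesEverything
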